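import Pool.Agent.helper55.GL.Spec

set_option autoImplicit false

namespace Pool.Agent.GL

open SimpleGraph

theorem ATM_card {V : Type} [Fintype V] (c : V → Bool) (S : Set V) :
    Nat.card {a : S // c a = true} ≤ Nat.card {a : V // c a = true} := by
  refine Nat.card_le_card_of_injective
    (fun x : {a : S // c a = true} => (⟨x.1.1, x.2⟩ : {a : V // c a = true})) ?_
  intro x y h
  have h1 : (x.1.1 : V) = y.1.1 :=
    congrArg (fun z : {a : V // c a = true} => z.1) h
  exact Subtype.ext (Subtype.ext h1)

theorem ATM_lt {V : Type} [Fintype V] (S : Set V) (hS : S ≠ Set.univ) :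
    Nat.card S < Nat.card V := by
  obtain ⟨v, hv⟩ := (Set.ne_univ_iff_exists_notMem S).mp hS
  apply Finite.card_subtype_lt (p := fun x => x ∈ S) hv

theorem ATM_pr {V : Type} (H : SimpleGraph V) (c : V → Bool) (S : Set V) (h : Pr H c) :
    Pr (H.induce S) (fun a => c a) := by
  intro a b hab
  exact h a b hab

theorem ATM (hSPR : SPR_stmt) (hQSM : QSM_stmt) (hISO : ISO_stmt) : ATM_stmt := by
  intro m hatom
  have key : ∀ k : ℕ, ∀ (V : Type) [Fintype V] (H : SimpleGraph V) (c : V → Bool),
      Nat.card V = k → Pr H c → Nat.card {a : V // c a = true} ≤ m → QG H c := by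
    intro k
    induction k using Nat.strong_induction_on with
    | _ k ih =>
      intro V _ H c hk hPr hc
      by_cases hA : Atom H
      · exact hatom V H c hPr hc hA
      · have step : ∀ S : Set V, S ≠ Set.univ → QG (H.induce S) (fun a => c a) := by
          intro S hS
          have hf : Fintype S := Fintype.ofFinite S
          exact ih (Nat.card S) (hk ▸ ATM_lt S hS) S (H.induce S) (fun a => c a) rfl
            (ATM_pr H c S hPr) (le_trans (ATM_card c S) hc)
        by_cases hiso : ∃ v, ∀ b, ¬ H.Adj v b
        · obtain ⟨v, hv⟩ := hiso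
          apply hISO V H c v hv
          apply step
          intro h
          have : v ∈ ({v}ᶜ : Set V) := h ▸ Set.mem_univ v
          exact this rfl
        · push Not at hiso
          obtain ⟨A, B, hA1, hB1, hAB, hno, hA2, hA3, hB3⟩ := hSPR V H c hPr hiso hA
          exact hQSM V H c hPr hiso A B hA1 hAB hno hA2 hA3 hB3 (step A hA1) (step B hB1)
  intro V _ H c hPr hc
  exact key (Nat.card V) V H c rfl hPr hc

end Pool.Agent.GL
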